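import Pool.Agent.Run7.h568.DG.CIface

/-!
# Closed surfaces: the scaling lines are Thurston geodesics
(piece C_geo of helper568's project DG, by helper269)
-/

set_option autoImplicit false

open Real Matrix

noncomputable section

namespace Run7.h269.DG

open Run7.h568.DG

/-- Piece `C_geo`. -/
theorem t_geo : C_scal → C_tr → C_mat → C_geo := by
  intro scal trc mat D _ _ T P p hp s t hst
  have hs0 : 0 < exp s := exp_pos s
  have hk0 : 0 < exp (t - s) := exp_pos _
  have hk1 : 1 ≤ exp (t - s) := by
    rw [← exp_zero]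
    exact exp_le_exp.2 (by linarith)
  have hp' : exp s • p ∈ P.Teich := ((mat T P p hp).1 _ hs0).1
  have hq : exp t • p = exp (t - s) • (exp s • p) := by
    rw [smul_smul, ← exp_add]
    congr 2
    ring
  have hcyc : T.cyc (exp t • p).1 P.v = exp (t - s) * T.cyc (exp s • p).1 P.v := by
    rw [hq]
    exact ((mat T P _ hp').1 _ hk0).2
  have hcpos : 0 < T.cyc (exp s • p).1 P.v := hp'.2.1
  have hG : IsGreatest {r : ℝ | (∃ w d, P.Closed w d ∧ P.Simple w d ∧
      r = P.len (exp t • p) w d / P.len (exp s • p) w d) ∨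
      r = T.cyc (exp t • p).1 P.v / T.cyc (exp s • p).1 P.v} (exp (t - s)) := by
    constructor
    · right
      rw [hcyc, mul_div_assoc, div_self hcpos.ne', mul_one]
    · rintro r (⟨w, d, hcl, -, rfl⟩ | rfl)
      · have h2 : 2 < tr (P.hol (exp s • p) w d) :=
          (trc T P _ hp' w d hcl.1 hcl.2.2.1 hcl.2.2.2).2
        have hlen : 0 < P.len (exp s • p) w d := by
          unfold Portal.len
          have h3 : 0 ≤ √(tr (P.hol (exp s • p) w d) ^ 2 - 4) := Real.sqrt_nonneg _
          have h4 : 1 < (tr (P.hol (exp s • p) w d) + √(tr (P.hol (exp s • p) w d) ^ 2 - 4)) / 2 := by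
            linarith
          have := Real.log_pos h4
          linarith
        rw [div_le_iff₀ hlen, hq]
        exact scal T P _ hp' _ hk1 w d hcl
      · rw [hcyc, mul_div_assoc, div_self hcpos.ne', mul_one]
  unfold Portal.dTh
  rw [hG.csSup_eq, Real.log_exp]

end Run7.h269.DG
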