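import Pool.Agent.Run7.h568.DG.CIface

/-!
# Closed surfaces: letters of strands (piece C_let of helper568's project DG, by helper269)
-/

set_option autoImplicit false

open Real Matrix

noncomputable section

namespace Run7.h269.DG

open Run7.h568.DG

lemma stepT (s : ℝ) : step true s = W * E s := by
  apply Subtype.ext
  ext i j
  fin_cases i <;> fin_cases j <;>
    simp [step, U, Del, W, E, Matrix.mul_apply, Fin.sum_univ_two]

lemma stepF (s : ℝ) : step false s = W * W * E s := by
  apply Subtype.ext
  ext i j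
  fin_cases i <;> fin_cases j <;>
    simp [step, U, Del, W, E, Matrix.mul_apply, Fin.sum_univ_two]

lemma stepB (b : Bool) (s : ℝ) : step b s = (if b then W else W * W) * E s := by
  cases b
  · simpa using stepF s
  · simpa using stepT s

lemma EE (s : ℝ) : E s * E s = -1 := by
  have h : exp (s / 2) * exp (-s / 2) = 1 := by
    rw [← exp_add]
    simp [neg_div]
  apply Subtype.ext
  ext i j
  fin_cases i <;> fin_cases j <;>
    simp [E, Matrix.mul_apply, Fin.sum_univ_two, h, mul_comm]

lemma Einv (s : ℝ) : (E s)⁻¹ = -(E s) := by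
  apply inv_eq_of_mul_eq_one_left
  rw [neg_mul, EE, neg_neg]

lemma WWW : W * W * W = -1 := by
  apply Subtype.ext
  ext i j
  fin_cases i <;> fin_cases j <;>
    simp [W, Matrix.mul_apply, Fin.sum_univ_two]

variable {D : Type} [Fintype D] [DecidableEq D] {T : Tri D} (P : Portal T)

lemma huv' : P.u ≠ P.v := P.huv 0

lemma iou_ne_v : T.io P.u ≠ P.v := fun h => P.hne h.symm

lemma iov_ne_u : T.io P.v ≠ P.u := fun h => P.hne (by rw [← h, T.io_io])

lemma iov_ne_iou : T.io P.v ≠ T.io P.u := fun h => huv' P (T.io.injective h).symm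

lemma out_fst (c : D → ℕ) (w : D × ℕ) :
    (Portal.out (T := T) c w).1 = T.turn (Tri.sbit c w) w.1 := by
  by_cases h : w.2 < c w.1
  · have h' : ¬ c w.1 ≤ w.2 := by omega
    simp [Portal.out, Tri.sbit, Tri.turn, h, h']
  · have h' : c w.1 ≤ w.2 := by omega
    simp [Portal.out, Tri.sbit, Tri.turn, h, h']

/-- the extra letters -/
def ext (c : D → ℕ) (a : ℕ) (s : D × ℕ) : List Letter :=
  if s.1 = T.io P.u ∧ T.num c P.u ≤ s.2 then [Letter.cf 0]
     else if s.1 = P.v ∧ s.2 < a then [Letter.ct 0] else []

lemma sletters_eq (c : D → ℕ) (a : ℕ) (w : D × ℕ) :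
    P.sletters c a w = Letter.turn (Tri.sbit c w) :: ext P c a (Portal.out (T := T) c w) := rfl

lemma ext_spec (c : D → ℕ) (a : ℕ) (p : (D → ℝ) × ℝ) (hx : ∀ d, p.1 (T.io d) = p.1 d)
    (s : D × ℕ) :
    P.Valid (ext P c a s) (T.io s.1) ∧ P.endp (ext P c a s) (T.io s.1) = (P.cross c a s).1 ∧
    E (p.1 s.1) * P.hol p (ext P c a s) (T.io s.1) = P.xm p c a s := by
  have n1 := iou_ne_v P
  have n2 := iov_ne_u P
  have n3 := iov_ne_iou P
  by_cases h1 : s.1 = T.io P.u
  · by_cases h2 : T.num c P.u ≤ s.2
    · have e : ext P c a s = [Letter.cf 0] := by simp [ext, h1, h2]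
      have e2 : (P.cross c a s).1 = P.v := by simp [Portal.cross, h1, h2]
      have e3 : P.xm p c a s = E (p.1 P.u) * P.J p := by simp [Portal.xm, h1, h2]
      rw [e, e2, e3]
      refine ⟨⟨?_, trivial⟩, rfl, ?_⟩
      · show T.io s.1 = P.u
        rw [h1, T.io_io]
      · rw [h1, hx]
        simp [Portal.hol, Portal.mat]
    · have e : ext P c a s = [] := by
        simp [ext, h1, h2, n1]
      have e2 : (P.cross c a s).1 = P.u := by simp [Portal.cross, h1, h2]
      have e3 : P.xm p c a s = E (p.1 s.1) := by simp [Portal.xm, h1, h2, n1]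
      rw [e, e2, e3]
      refine ⟨trivial, ?_, ?_⟩
      · show T.io s.1 = P.u
        rw [h1, T.io_io]
      · simp [Portal.hol]
  · by_cases h3 : s.1 = P.v
    · by_cases h4 : s.2 < a
      · have e : ext P c a s = [Letter.ct 0] := by
          simp [ext, h3, h4, n1.symm]
        have e2 : (P.cross c a s).1 = T.io P.u := by
          simp [Portal.cross, h3, h4, n1.symm]
        have e3 : P.xm p c a s = (P.J p)⁻¹ * E (p.1 P.u) := by
          simp [Portal.xm, h3, h4, n1.symm]
        rw [e, e2, e3]
        refine ⟨⟨?_, trivial⟩, rfl, ?_⟩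
        · show T.io s.1 = T.io P.v
          rw [h3]
        · rw [h3]
          simp only [Portal.hol, Portal.mat, zpow_zero, one_mul, mul_one]
          rw [← mul_assoc, ← mul_assoc, EE, Einv (p.1 P.u)]
          simp
      · have e : ext P c a s = [] := by
          simp [ext, h3, h4, n1.symm]
        have e2 : (P.cross c a s).1 = T.io P.v := by
          simp [Portal.cross, h3, h4, n1.symm]
        have e3 : P.xm p c a s = E (p.1 s.1) := by
          simp [Portal.xm, h3, h4, n1.symm]
        rw [e, e2, e3]
        refine ⟨trivial, ?_, ?_⟩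
        · show T.io s.1 = T.io P.v
          rw [h3]
        · simp [Portal.hol]
    · have e : ext P c a s = [] := by
        simp [ext, h1, h3]
      have e2 : (P.cross c a s).1 = T.io s.1 := by
        by_cases h5 : s.1 = T.io P.v
        · simp [Portal.cross, h5, n3, T.io_io, T.io_ne]
        · simp [Portal.cross, h1, h3, h5]
      have e3 : P.xm p c a s = E (p.1 s.1) := by
        simp [Portal.xm, h1, h3]
      rw [e, e2, e3]
      refine ⟨trivial, rfl, ?_⟩
      simp [Portal.hol]

lemma xm_cross (c : D → ℕ) (a : ℕ) (hM : P.Match c a) (p : (D → ℝ) × ℝ)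
    (hx : ∀ d, p.1 (T.io d) = p.1 d) (w : D × ℕ) (hw : w.2 < T.num c w.1) :
    P.xm p c a w * P.xm p c a (P.cross c a w) = -1 := by
  have n0 := huv' P
  have n1 := iou_ne_v P
  have n2 := iov_ne_u P
  have n3 := iov_ne_iou P
  obtain ⟨hM1, hM2, hM3⟩ := hM
  obtain ⟨d, i⟩ := w
  simp only at hw
  by_cases h1 : d = T.io P.u
  · subst h1
    by_cases h2 : T.num c P.u ≤ i
    · have h3 : T.num c (T.io P.u) - 1 - i < a := by omega
      simp only [Portal.xm, Portal.cross, h2, if_true, and_self, n1.symm, false_and, if_false, h3]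
      rw [mul_assoc, ← mul_assoc (P.J p), mul_inv_cancel, one_mul, EE]
    · simp only [Portal.xm, Portal.cross, h2, if_true, if_false, and_false, n1, false_and,
        (T.io_ne P.u).symm, n0]
      rw [hx, EE]
  · by_cases h3 : d = P.v
    · subst h3
      by_cases h4 : i < a
      · have h5 : T.num c P.u ≤ T.num c (T.io P.u) - 1 - i := by omega
        simp only [Portal.xm, Portal.cross, h4, if_true, and_self, n1.symm, false_and, if_false, h5]
        rw [mul_assoc, ← mul_assoc (E (p.1 P.u)), EE]
        simp
      · simp only [Portal.xm, Portal.cross, h4, if_true, if_false, and_false, n1.symm, false_and,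
          n3, T.io_ne P.v]
        rw [hx, EE]
    · by_cases h5 : d = T.io P.v
      · subst h5
        have h6 : ¬ (T.num c P.v - 1 - i < a) := by omega
        simp only [Portal.xm, Portal.cross, if_true, if_false, and_false, n1.symm, false_and,
          n3, T.io_ne P.v, h6]
        rw [hx, EE]
      · have e1 : P.cross c a (d, i) = (T.io d, T.num c d - 1 - i) := by
          simp [Portal.cross, h1, h3, h5]
        have e2 : P.xm p c a (d, i) = E (p.1 d) := by
          simp [Portal.xm, h1, h3]
        have e3 : P.xm p c a (T.io d, T.num c d - 1 - i) = E (p.1 (T.io d)) := by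
          have m1 : ¬ (T.io d = T.io P.u ∧ T.num c P.u ≤ T.num c d - 1 - i) := by
            rintro ⟨q1, q2⟩
            have q3 : d = P.u := T.io.injective q1
            rw [q3] at q2 hw
            omega
          have m2 : ¬ (T.io d = P.v ∧ T.num c d - 1 - i < a) := by
            rintro ⟨q1, q2⟩
            apply h5
            rw [← q1, T.io_io]
          simp only [Portal.xm, m1, m2, if_false]
        rw [e1, e2, e3, hx, EE]

/-- Piece `C_let`. -/
theorem t_let : C_let := by
  intro D _ _ T P c a hM p hx w hw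
  obtain ⟨s1, s2, s3⟩ := ext_spec P c a p hx (Portal.out (T := T) c w)
  rw [sletters_eq]
  refine ⟨⟨trivial, ?_⟩, ?_, ?_, xm_cross P c a hM p hx w hw⟩
  · show P.Valid _ (T.io (T.turn (Tri.sbit c w) w.1))
    rw [← out_fst]
    exact s1
  · show P.endp _ (T.io (T.turn (Tri.sbit c w) w.1)) = (P.cross c a (Portal.out (T := T) c w)).1
    rw [← out_fst]
    exact s2
  · show step (Tri.sbit c w) (p.1 (T.turn (Tri.sbit c w) w.1)) *
      P.hol p _ (T.io (T.turn (Tri.sbit c w) w.1)) = _
    rw [← out_fst, stepB, mul_assoc, s3]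

end Run7.h269.DG
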