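import Pool.Agent.Run7.h269.DG.CLet

/-!
# Closed surfaces: holonomy of a strand, of its successor and of its reverse
(piece C_str of helper568's project DG, by helper269, after helper109's S_str)
-/

set_option autoImplicit false

open Real Matrix

noncomputable section

namespace Run7.h269.DG

open Run7.h568.DG

variable {D : Type} [Fintype D] [DecidableEq D] {T : Tri D} (P : Portal T)

lemma hol_append (p : (D → ℝ) × ℝ) (w1 w2 : List Letter) : ∀ d : D,
    P.hol p (w1 ++ w2) d = P.hol p w1 d * P.hol p w2 (P.endp w1 d) := by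
  induction w1 with
  | nil => intro d; simp [Portal.hol, Portal.endp]
  | cons l w ih =>
    intro d
    show P.mat p d l * P.hol p (w ++ w2) (P.nxt d l) = P.mat p d l * P.hol p w (P.nxt d l) *
      P.hol p w2 (P.endp w (P.nxt d l))
    rw [ih, mul_assoc]

/-- the step of a strand -/
def st (c : D → ℕ) (a : ℕ) (p : (D → ℝ) × ℝ) (w : D × ℕ) : SL :=
  P.hol p (P.sletters c a w) w.1

/-- the holonomy of a strand -/
def hn (c : D → ℕ) (a : ℕ) (p : (D → ℝ) × ℝ) (n : ℕ) (w : D × ℕ) : SL :=
  P.hol p (P.itin c a n w) w.1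

/-- the combinatorial facts at `w` -/
def Cmb (c : D → ℕ) (a : ℕ) : Prop := ∀ w : D × ℕ, w.2 < T.num c w.1 →
    (Portal.out (T := T) c w).2 < T.num c (Portal.out (T := T) c w).1 ∧
    Portal.out (T := T) c (Portal.out (T := T) c w) = w ∧
    Tri.sbit c (Portal.out (T := T) c w) = !(Tri.sbit c w) ∧
    (P.cross c a w).2 < T.num c (P.cross c a w).1 ∧ P.cross c a (P.cross c a w) = w ∧
    (P.snext c a w).2 < T.num c (P.snext c a w).1

lemma hn_succ (c : D → ℕ) (a : ℕ) (hM : P.Match c a) (p : (D → ℝ) × ℝ)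
    (hx : ∀ d, p.1 (T.io d) = p.1 d) (n : ℕ) (w : D × ℕ) (hw : w.2 < T.num c w.1) :
    hn P c a p (n + 1) w = st P c a p w * hn P c a p n (P.snext c a w) := by
  unfold hn st
  rw [Portal.itin, hol_append, (t_let T P c a hM p hx w hw).2.1]

lemma valid_iter (c : D → ℕ) (a : ℕ) (hC : Cmb P c a) (n : ℕ) :
    ∀ w : D × ℕ, w.2 < T.num c w.1 →
    ((P.snext c a)^[n] w).2 < T.num c ((P.snext c a)^[n] w).1 := by
  induction n with
  | zero => exact fun w hw => hw
  | succ n ih =>
    intro w hw
    rw [Function.iterate_succ_apply]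
    exact ih _ (hC w hw).2.2.2.2.2

lemma hn_succ' (c : D → ℕ) (a : ℕ) (hM : P.Match c a) (hC : Cmb P c a) (p : (D → ℝ) × ℝ)
    (hx : ∀ d, p.1 (T.io d) = p.1 d) (n : ℕ) : ∀ w : D × ℕ, w.2 < T.num c w.1 →
    hn P c a p (n + 1) w = hn P c a p n w * st P c a p ((P.snext c a)^[n] w) := by
  induction n with
  | zero =>
    intro w hw
    rw [hn_succ P c a hM p hx 0 w hw]
    simp [hn, Portal.itin, Portal.hol]
  | succ n ih =>
    intro w hw
    rw [hn_succ P c a hM p hx _ w hw, ih _ (hC w hw).2.2.2.2.2, hn_succ P c a hM p hx n w hw,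
      mul_assoc, Function.iterate_succ_apply]

lemma VV (b : Bool) : (if b then W else W * W) * (if !b then W else W * W) = (-1 : SL) := by
  cases b
  · simpa using WWW
  · have := WWW
    rw [mul_assoc] at this
    simpa using this

lemma cross_snext (c : D → ℕ) (a : ℕ) (hC : Cmb P c a) (w : D × ℕ) (hw : w.2 < T.num c w.1) :
    P.cross c a (P.snext c a w) = Portal.out (T := T) c w :=
  (hC _ (hC w hw).1).2.2.2.2.1

lemma snext_out (c : D → ℕ) (a : ℕ) (hC : Cmb P c a) (w : D × ℕ) (hw : w.2 < T.num c w.1) :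
    P.snext c a (Portal.out (T := T) c w) = P.cross c a w := by
  show P.cross c a (Portal.out (T := T) c (Portal.out (T := T) c w)) = _
  rw [(hC w hw).2.1]

lemma st_key (c : D → ℕ) (a : ℕ) (hM : P.Match c a) (hC : Cmb P c a) (p : (D → ℝ) × ℝ)
    (hx : ∀ d, p.1 (T.io d) = p.1 d) (w : D × ℕ) (hw : w.2 < T.num c w.1) :
    st P c a p w * P.xm p c a (P.snext c a w) * st P c a p (P.cross c a (P.snext c a w)) =
      P.xm p c a w := by
  obtain ⟨h1, h2, h3, -, -, -⟩ := hC w hw
  rw [cross_snext P c a hC w hw]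
  have e1 := (t_let T P c a hM p hx w hw).2.2.1
  have e2 := (t_let T P c a hM p hx _ h1).2.2.1
  have e3 := (t_let T P c a hM p hx _ h1).2.2.2
  rw [h2, h3] at e2
  unfold st
  rw [e1, e2]
  have e4 : P.xm p c a (Portal.out (T := T) c w) * P.xm p c a (P.snext c a w) = -1 := e3
  calc (if Tri.sbit c w then W else W * W) * P.xm p c a (Portal.out (T := T) c w) *
        P.xm p c a (P.snext c a w) * ((if !Tri.sbit c w then W else W * W) * P.xm p c a w) =
      (if Tri.sbit c w then W else W * W) * (P.xm p c a (Portal.out (T := T) c w) *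
        P.xm p c a (P.snext c a w)) * (if !Tri.sbit c w then W else W * W) * P.xm p c a w := by
        simp only [mul_assoc]
    _ = P.xm p c a w := by
        rw [e4, mul_neg, mul_one, neg_mul, VV, neg_neg, one_mul]

lemma tele (c : D → ℕ) (a : ℕ) (hM : P.Match c a) (hC : Cmb P c a) (p : (D → ℝ) × ℝ)
    (hx : ∀ d, p.1 (T.io d) = p.1 d) (w : D × ℕ) (hw : w.2 < T.num c w.1) (n : ℕ) :
    hn P c a p n w * P.xm p c a ((P.snext c a)^[n] w) *
      hn P c a p n (P.cross c a ((P.snext c a)^[n] w)) = P.xm p c a w := by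
  induction n with
  | zero => simp [hn, Portal.itin, Portal.hol]
  | succ n ih =>
    set u := (P.snext c a)^[n] w with hu
    have e1 : (P.snext c a)^[n + 1] w = P.snext c a u := Function.iterate_succ_apply' _ _ _
    have hval : u.2 < T.num c u.1 := valid_iter P c a hC n w hw
    have hval2 : (P.snext c a u).2 < T.num c (P.snext c a u).1 := (hC u hval).2.2.2.2.2
    have hval3 : (P.cross c a (P.snext c a u)).2 < T.num c (P.cross c a (P.snext c a u)).1 :=
      (hC _ hval2).2.2.2.1
    have e3 : P.snext c a (P.cross c a (P.snext c a u)) = P.cross c a u := by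
      rw [cross_snext P c a hC u hval, snext_out P c a hC u hval]
    rw [e1, hn_succ' P c a hM hC p hx n w hw, ← hu,
      hn_succ P c a hM p hx n (P.cross c a (P.snext c a u)) hval3, e3]
    have e2 := st_key P c a hM hC p hx u hval
    calc hn P c a p n w * st P c a p u * P.xm p c a (P.snext c a u) *
          (st P c a p (P.cross c a (P.snext c a u)) * hn P c a p n (P.cross c a u)) =
        hn P c a p n w * (st P c a p u * P.xm p c a (P.snext c a u) *
          st P c a p (P.cross c a (P.snext c a u))) * hn P c a p n (P.cross c a u) := by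
          simp only [mul_assoc]
      _ = P.xm p c a w := by rw [e2, ih]

/-- Piece `C_str`. -/
theorem t_str : C_comb → C_str := by
  intro comb D _ _ T P t p hx d i hi
  have hC : Cmb P t.c t.a := comb T P t.c t.a t.hc
  have comm : ∀ w : D × ℕ, w.2 < T.num t.c w.1 →
      t.str p w * st P t.c t.a p w = st P t.c t.a p w * t.str p (P.snext t.c t.a w) := by
    intro w hw
    have h1 := hn_succ P t.c t.a t.hc p hx t.Q w hw
    have h2 := hn_succ' P t.c t.a t.hc hC p hx t.Q w hw
    have hper : (P.snext t.c t.a)^[t.Q] w = w := t.per w.1 w.2 hw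
    rw [hper] at h2
    exact h2.symm.trans h1
  have revs : ∀ w : D × ℕ, w.2 < T.num t.c w.1 →
      t.str p (P.cross t.c t.a w) =
        (P.xm p t.c t.a w)⁻¹ * (t.str p w)⁻¹ * P.xm p t.c t.a w := by
    intro w hw
    have h1 := tele P t.c t.a t.hc hC p hx w hw t.Q
    have hper : (P.snext t.c t.a)^[t.Q] w = w := t.per w.1 w.2 hw
    rw [hper] at h1
    have h2 : t.str p w * P.xm p t.c t.a w * t.str p (P.cross t.c t.a w) =
      P.xm p t.c t.a w := h1
    calc t.str p (P.cross t.c t.a w) = (P.xm p t.c t.a w)⁻¹ * (t.str p w)⁻¹ *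
          (t.str p w * P.xm p t.c t.a w * t.str p (P.cross t.c t.a w)) := by group
      _ = _ := by rw [h2]
  refine ⟨comm (d, i) hi, revs (d, i) hi, fun hci => ?_⟩
  have hout : Portal.out (T := T) t.c (d, i) = (T.sg d, T.num t.c d - 1 - i) := by
    have h' : ¬ i < t.c d := by omega
    simp [Portal.out, h']
  obtain ⟨ho, -, -, -, -, -⟩ := hC (d, i) hi
  have hsn : P.snext t.c t.a (d, i) = P.cross t.c t.a (Portal.out (T := T) t.c (d, i)) := rfl
  have e1 := revs _ ho
  have e2 := comm (d, i) hi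
  have e3 : st P t.c t.a p (d, i) = W * P.xm p t.c t.a (Portal.out (T := T) t.c (d, i)) := by
    have := (t_let T P t.c t.a t.hc p hx (d, i) hi).2.2.1
    have hs : Tri.sbit t.c (d, i) = true := by simp [Tri.sbit, hci]
    rw [hs, if_pos rfl] at this
    exact this
  have e4 := t.m_next d i hi
  have e5 := t.m_rev _ _ ho
  rw [hsn] at e2 e4
  rw [e1, e3] at e2
  rw [hout] at e2 e4 e5
  constructor
  · have e6 : t.str p (d, i) = W * P.xm p t.c t.a (T.sg d, T.num t.c d - 1 - i) *
        ((P.xm p t.c t.a (T.sg d, T.num t.c d - 1 - i))⁻¹ *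
          (t.str p (T.sg d, T.num t.c d - 1 - i))⁻¹ *
          P.xm p t.c t.a (T.sg d, T.num t.c d - 1 - i)) *
        (W * P.xm p t.c t.a (T.sg d, T.num t.c d - 1 - i))⁻¹ := by
      rw [← e2]
      group
    rw [e6]
    group
  · exact (e5.symm.trans e4).symm

end Run7.h269.DG
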